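import Pool.Agent.helper14.NS.Q150g.PN4

/-!
Generated: certificates.
-/

namespace Pool.Agent.helper14.NS.Q150g

open Pool.Agent.helper31.IA (Z)
open Pool.Agent.helper31.IX (Op XOps runX Cov CovD cov_split covD_split)
open Pool.Agent.helper31.IC (TD)
open Pool.Agent.helper63.RG (reloc)
open Pool.Agent.helper63.NF hiding TD
open Pool.Agent.helper4.NS
open Pool.Agent.helper14.CF (xE covD_E)
open Pool.Agent.helper14.NR (share)

mutual
theorem A4_c0_t3 : CovD 1 gA4 [(5955387392, 458752000), (6975026888704, 377957122048), (2199023255552, 2199023255552)] :=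
  covD_E kA4_eq (.n 0 (.n 1 (.n 2 (.n 2 (.l 0) (.l 0)) (.n 2 (.l 0) (.l 0))) (.n 2 (.n 2 (.l 0) (.l 0)) (.n 2 (.l 0) (.l 0)))) (.n 1 (.n 2 (.n 2 (.l 0) (.l 0)) (.n 2 (.l 0) (.l 0))) (.n 2 (.n 2 (.l 0) (.l 0)) (.n 2 (.l 0) (.l 0)))))
    [(5955387392, 458752000), (6975026888704, 377957122048), (2199023255552, 2199023255552)] rfl (by decide +kernel)
theorem A4_c0_t6 : CovD 1 gA4 [(5726011392, 229376000), (6975026888704, 377957122048), (5497558138880, 1099511627776)] :=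
  covD_E kA4_eq (.n 1 (.n 2 (.l 0) (.n 2 (.n 2 (.l 0) (.n 0 (.n 1 (.l 1) (.l 0)) (.n 1 (.n 0 (.l 1) (.l 1)) (.l 0)))) (.l 1))) (.n 2 (.l 0) (.n 2 (.l 0) (.n 2 (.n 0 (.n 0 (.l 1) (.l 1)) (.l 0)) (.l 1)))))
    [(5726011392, 229376000), (6975026888704, 377957122048), (5497558138880, 1099511627776)] rfl (by decide +kernel)
end

mutual
theorem A4_c0_t7 : CovD 1 gA4 [(6184763392, 229376000), (6975026888704, 377957122048), (5497558138880, 1099511627776)] :=
  covD_E kA4_eq (.n 2 (.n 1 (.l 0) (.l 0)) (.n 2 (.n 0 (.l 0) (.l 0)) (.n 1 (.n 2 (.n 0 (.l 1) (.n 0 (.l 1) (.l 0))) (.l 1)) (.n 2 (.l 0) (.n 0 (.l 1) (.l 0))))))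
    [(6184763392, 229376000), (6975026888704, 377957122048), (5497558138880, 1099511627776)] rfl (by decide +kernel)
theorem A4_c0_t8 : CovD 1 gA4 [(5955387392, 458752000), (6975026888704, 377957122048), (7696581394432, 1099511627776)] :=
  covD_E kA4_eq (.n 2 (.n 0 (.l 1) (.n 2 (.l 1) (.l 1))) (.l 1))
    [(5955387392, 458752000), (6975026888704, 377957122048), (7696581394432, 1099511627776)] rfl (by decide +kernel)
end

mutual
theorem A4_c0_t10 : CovD 1 gA4 [(5955387392, 458752000), (7730941132800, 377957122048), (2199023255552, 2199023255552)] :=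
  covD_E kA4_eq (.n 0 (.n 1 (.n 2 (.n 2 (.l 0) (.l 0)) (.n 2 (.l 0) (.l 0))) (.n 2 (.n 2 (.l 0) (.l 0)) (.n 2 (.l 0) (.l 0)))) (.n 1 (.n 2 (.n 2 (.l 0) (.l 0)) (.n 2 (.l 0) (.l 0))) (.n 2 (.n 2 (.l 0) (.l 0)) (.n 2 (.l 0) (.l 0)))))
    [(5955387392, 458752000), (7730941132800, 377957122048), (2199023255552, 2199023255552)] rfl (by decide +kernel)
theorem A4_c0_t12 : CovD 1 gA4 [(5955387392, 458752000), (7730941132800, 377957122048), (5497558138880, 1099511627776)] :=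
  covD_E kA4_eq (.n 0 (.n 1 (.n 2 (.l 0) (.n 2 (.l 0) (.n 0 (.n 2 (.l 0) (.n 0 (.l 1) (.l 1))) (.l 0)))) (.n 2 (.l 0) (.l 0))) (.n 1 (.n 2 (.l 0) (.l 0)) (.n 2 (.l 0) (.l 0))))
    [(5955387392, 458752000), (7730941132800, 377957122048), (5497558138880, 1099511627776)] rfl (by decide +kernel)
end

mutual
theorem A4_c0_t13 : CovD 1 gA4 [(5955387392, 458752000), (7730941132800, 377957122048), (7696581394432, 1099511627776)] :=
  covD_E kA4_eq (.n 2 (.n 0 (.n 2 (.n 1 (.l 1) (.n 2 (.n 1 (.n 0 (.l 1) (.l 1)) (.l 0)) (.l 1))) (.l 1)) (.n 1 (.n 2 (.n 2 (.n 0 (.l 1) (.l 0)) (.l 1)) (.l 1)) (.n 0 (.n 2 (.l 0) (.l 1)) (.n 2 (.l 0) (.l 1))))) (.l 1))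
    [(5955387392, 458752000), (7730941132800, 377957122048), (7696581394432, 1099511627776)] rfl (by decide +kernel)
theorem A4_c0_t16 : CovD 1 gA4 [(6872891392, 458752000), (6975026888704, 377957122048), (2199023255552, 2199023255552)] :=
  covD_E kA4_eq (.n 0 (.n 1 (.n 2 (.n 2 (.l 0) (.l 0)) (.n 2 (.l 0) (.l 0))) (.n 2 (.n 2 (.l 0) (.l 0)) (.n 2 (.l 0) (.l 0)))) (.n 1 (.n 2 (.n 2 (.l 0) (.l 0)) (.n 2 (.l 0) (.l 0))) (.n 2 (.n 2 (.l 0) (.l 0)) (.n 2 (.l 0) (.l 0)))))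
    [(6872891392, 458752000), (6975026888704, 377957122048), (2199023255552, 2199023255552)] rfl (by decide +kernel)
end

mutual
theorem A4_c0_t18 : CovD 1 gA4 [(6872891392, 458752000), (6975026888704, 377957122048), (5497558138880, 1099511627776)] :=
  covD_E kA4_eq (.n 0 (.n 2 (.n 1 (.l 0) (.l 0)) (.n 2 (.l 0) (.n 1 (.n 2 (.l 0) (.n 0 (.l 1) (.l 1))) (.l 0)))) (.n 2 (.n 1 (.l 0) (.l 0)) (.n 2 (.l 0) (.n 0 (.n 2 (.l 0) (.l 0)) (.l 0)))))
    [(6872891392, 458752000), (6975026888704, 377957122048), (5497558138880, 1099511627776)] rfl (by decide +kernel)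
theorem A4_c0_t19 : CovD 1 gA4 [(6872891392, 458752000), (6975026888704, 377957122048), (7696581394432, 1099511627776)] :=
  covD_E kA4_eq (.n 2 (.n 0 (.n 1 (.l 1) (.n 2 (.n 0 (.l 1) (.n 0 (.l 1) (.n 2 (.l 1) (.l 1)))) (.l 1))) (.n 2 (.n 1 (.l 1) (.n 2 (.l 0) (.n 0 (.l 1) (.l 1)))) (.l 1))) (.l 1))
    [(6872891392, 458752000), (6975026888704, 377957122048), (7696581394432, 1099511627776)] rfl (by decide +kernel)
end

mutual
theorem A4_c0_t21 : CovD 1 gA4 [(6872891392, 458752000), (7730941132800, 377957122048), (2199023255552, 2199023255552)] :=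
  covD_E kA4_eq (.n 0 (.n 1 (.n 2 (.n 2 (.l 0) (.l 0)) (.n 2 (.l 0) (.l 0))) (.n 2 (.n 2 (.l 0) (.l 0)) (.n 2 (.l 0) (.l 0)))) (.n 1 (.n 2 (.n 2 (.l 0) (.l 0)) (.n 2 (.l 0) (.l 0))) (.n 2 (.n 2 (.l 0) (.l 0)) (.n 2 (.l 0) (.l 0)))))
    [(6872891392, 458752000), (7730941132800, 377957122048), (2199023255552, 2199023255552)] rfl (by decide +kernel)
theorem A4_c0_t23 : CovD 1 gA4 [(6872891392, 458752000), (7730941132800, 377957122048), (5497558138880, 1099511627776)] :=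
  covD_E kA4_eq (.n 0 (.n 1 (.n 2 (.l 0) (.l 0)) (.n 2 (.l 0) (.l 0))) (.n 1 (.n 2 (.l 0) (.l 0)) (.n 2 (.l 0) (.l 0))))
    [(6872891392, 458752000), (7730941132800, 377957122048), (5497558138880, 1099511627776)] rfl (by decide +kernel)
end

mutual
theorem A4_c0_t24 : CovD 1 gA4 [(6872891392, 458752000), (7730941132800, 377957122048), (7696581394432, 1099511627776)] :=
  covD_E kA4_eq (.n 2 (.n 0 (.n 2 (.n 0 (.n 2 (.l 0) (.l 0)) (.l 0)) (.n 1 (.l 1) (.n 2 (.l 0) (.l 1)))) (.n 1 (.n 2 (.l 0) (.n 2 (.l 0) (.l 1))) (.l 0))) (.n 1 (.l 1) (.n 0 (.l 1) (.n 2 (.n 2 (.l 1) (.l 1)) (.l 1)))))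
    [(6872891392, 458752000), (7730941132800, 377957122048), (7696581394432, 1099511627776)] rfl (by decide +kernel)
theorem B4_c0_t1 : CovD 1 gB4 [(6414139392, 917504000), (7352984010752, 755914244096), (34359738368, 34359738368)] :=
  covD_E kB4_eq (.n 2 (.n 2 (.n 2 (.n 0 (.n 2 (.l 1) (.l 1)) (.n 2 (.l 1) (.l 1))) (.n 2 (.n 0 (.l 1) (.l 1)) (.l 1))) (.n 2 (.n 2 (.l 1) (.l 1)) (.n 0 (.l 1) (.l 1)))) (.n 2 (.n 2 (.l 1) (.l 1)) (.n 0 (.l 1) (.l 1))))
    [(6414139392, 917504000), (7352984010752, 755914244096), (34359738368, 34359738368)] rfl (by decide +kernel)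
end

mutual
theorem B4_c0_t2 : CovD 1 gB4 [(6414139392, 917504000), (7352984010752, 755914244096), (103079215104, 34359738368)] :=
  covD_E kB4_eq (.n 2 (.n 2 (.l 1) (.n 0 (.l 1) (.l 1))) (.n 0 (.n 2 (.l 1) (.l 1)) (.n 2 (.l 1) (.n 0 (.l 1) (.l 1)))))
    [(6414139392, 917504000), (7352984010752, 755914244096), (103079215104, 34359738368)] rfl (by decide +kernel)
theorem D4_c0_t2 : CovD 1 gD4 [(6414139392, 917504000), (6786048327680, 188978561024), (863610339328, 863610339328)] :=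
  covD_E kD4_eq (.n 2 (.n 2 (.n 2 (.l 0) (.n 2 (.l 0) (.l 0))) (.n 2 (.n 2 (.l 0) (.l 0)) (.n 2 (.l 0) (.l 0)))) (.n 2 (.n 2 (.n 2 (.l 0) (.l 0)) (.n 2 (.l 0) (.l 0))) (.n 2 (.n 2 (.l 0) (.l 0)) (.n 2 (.l 0) (.l 0)))))
    [(6414139392, 917504000), (6786048327680, 188978561024), (863610339328, 863610339328)] rfl (by decide +kernel)
end

mutual
theorem D4_c0_t3 : CovD 1 gD4 [(6414139392, 917504000), (7164005449728, 188978561024), (863610339328, 863610339328)] :=
  covD_E kD4_eq (.n 2 (.n 2 (.n 2 (.n 2 (.l 0) (.l 0)) (.n 2 (.l 0) (.l 0))) (.n 2 (.n 2 (.l 0) (.l 0)) (.n 2 (.l 0) (.l 0)))) (.n 2 (.n 2 (.n 2 (.l 0) (.l 0)) (.n 2 (.l 0) (.l 0))) (.n 2 (.n 2 (.l 0) (.l 0)) (.n 2 (.l 0) (.l 0)))))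
    [(6414139392, 917504000), (7164005449728, 188978561024), (863610339328, 863610339328)] rfl (by decide +kernel)
theorem D4_c0_t5 : CovD 1 gD4 [(6414139392, 917504000), (7541962571776, 188978561024), (863610339328, 863610339328)] :=
  covD_E kD4_eq (.n 2 (.n 2 (.n 2 (.n 2 (.l 0) (.l 0)) (.n 2 (.l 0) (.l 0))) (.n 2 (.n 2 (.l 0) (.l 0)) (.n 2 (.l 0) (.l 0)))) (.n 2 (.n 2 (.n 2 (.l 0) (.l 0)) (.n 2 (.l 0) (.l 0))) (.n 2 (.n 2 (.l 0) (.l 0)) (.n 2 (.l 0) (.l 0)))))
    [(6414139392, 917504000), (7541962571776, 188978561024), (863610339328, 863610339328)] rfl (by decide +kernel)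
end

mutual
theorem D4_c0_t6 : CovD 1 gD4 [(6414139392, 917504000), (7919919693824, 188978561024), (863610339328, 863610339328)] :=
  covD_E kD4_eq (.n 2 (.n 2 (.n 2 (.n 2 (.l 0) (.l 0)) (.n 2 (.l 0) (.l 0))) (.n 2 (.n 2 (.l 0) (.l 0)) (.n 2 (.l 0) (.l 0)))) (.n 2 (.n 2 (.n 2 (.l 0) (.l 0)) (.n 2 (.l 0) (.l 0))) (.n 2 (.n 2 (.l 0) (.l 0)) (.n 2 (.l 0) (.l 0)))))
    [(6414139392, 917504000), (7919919693824, 188978561024), (863610339328, 863610339328)] rfl (by decide +kernel)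
theorem E4_c0_t3 : CovD 1 gE4 [(6414139392, 917504000), (7352984010752, 755914244096), (107951292416, 107951292416)] :=
  covD_E kE4_eq (.n 2 (.n 2 (.l 1) (.l 1)) (.n 2 (.n 1 (.l 1) (.l 1)) (.n 0 (.n 1 (.n 2 (.l 0) (.l 0)) (.n 2 (.l 1) (.l 0))) (.n 0 (.n 2 (.l 1) (.n 1 (.l 1) (.l 1))) (.l 1)))))
    [(6414139392, 917504000), (7352984010752, 755914244096), (107951292416, 107951292416)] rfl (by decide +kernel)
end

mutual
theorem E4_c0_t5 : CovD 1 gE4 [(6414139392, 917504000), (6975026888704, 377957122048), (323853877248, 107951292416)] :=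
  covD_E kE4_eq (.n 1 (.n 2 (.n 2 (.l 0) (.l 0)) (.n 2 (.l 0) (.l 0))) (.n 2 (.n 2 (.l 0) (.l 0)) (.n 2 (.l 0) (.l 0))))
    [(6414139392, 917504000), (6975026888704, 377957122048), (323853877248, 107951292416)] rfl (by decide +kernel)
theorem E4_c0_t6 : CovD 1 gE4 [(6414139392, 917504000), (7730941132800, 377957122048), (323853877248, 107951292416)] :=
  covD_E kE4_eq (.n 1 (.n 2 (.n 0 (.n 2 (.l 0) (.l 0)) (.n 2 (.l 0) (.l 0))) (.n 2 (.l 0) (.l 0))) (.n 0 (.n 2 (.n 2 (.l 0) (.l 0)) (.n 2 (.l 0) (.l 0))) (.n 2 (.n 2 (.l 0) (.l 0)) (.n 2 (.l 0) (.l 0)))))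
    [(6414139392, 917504000), (7730941132800, 377957122048), (323853877248, 107951292416)] rfl (by decide +kernel)
end

mutual
theorem E4_c0_t8 : CovD 1 gE4 [(6414139392, 917504000), (6975026888704, 377957122048), (647707754496, 215902584832)] :=
  covD_E kE4_eq (.n 1 (.n 2 (.n 0 (.n 2 (.l 0) (.l 0)) (.n 2 (.l 0) (.l 0))) (.n 2 (.l 0) (.l 0))) (.n 0 (.n 2 (.n 2 (.l 0) (.l 0)) (.n 2 (.l 0) (.l 0))) (.n 2 (.n 2 (.l 0) (.l 0)) (.n 2 (.l 0) (.l 0)))))
    [(6414139392, 917504000), (6975026888704, 377957122048), (647707754496, 215902584832)] rfl (by decide +kernel)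
theorem E4_c0_t9 : CovD 1 gE4 [(6414139392, 917504000), (7730941132800, 377957122048), (647707754496, 215902584832)] :=
  covD_E kE4_eq (.n 1 (.n 2 (.n 2 (.n 2 (.l 0) (.l 0)) (.n 0 (.l 0) (.l 0))) (.n 0 (.n 2 (.l 0) (.l 0)) (.n 2 (.l 0) (.l 0)))) (.n 2 (.n 2 (.n 2 (.l 0) (.l 0)) (.n 0 (.l 0) (.l 0))) (.n 0 (.n 2 (.l 0) (.l 0)) (.n 2 (.l 0) (.l 0)))))
    [(6414139392, 917504000), (7730941132800, 377957122048), (647707754496, 215902584832)] rfl (by decide +kernel)
end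

mutual
theorem E4_c0_t12 : CovD 1 gE4 [(6414139392, 917504000), (6786048327680, 188978561024), (1295415508992, 431805169664)] :=
  covD_E kE4_eq (.n 2 (.n 2 (.n 2 (.l 0) (.l 0)) (.n 2 (.l 0) (.l 0))) (.n 2 (.n 2 (.l 0) (.l 0)) (.n 2 (.l 0) (.l 0))))
    [(6414139392, 917504000), (6786048327680, 188978561024), (1295415508992, 431805169664)] rfl (by decide +kernel)
theorem E4_c0_t13 : CovD 1 gE4 [(6414139392, 917504000), (7164005449728, 188978561024), (1295415508992, 431805169664)] :=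
  covD_E kE4_eq (.n 2 (.n 2 (.n 2 (.n 0 (.l 0) (.l 0)) (.l 0)) (.n 2 (.l 0) (.l 0))) (.n 2 (.n 2 (.l 0) (.l 0)) (.n 2 (.l 0) (.l 0))))
    [(6414139392, 917504000), (7164005449728, 188978561024), (1295415508992, 431805169664)] rfl (by decide +kernel)
end

mutual
theorem E4_c0_t15 : CovD 1 gE4 [(6414139392, 917504000), (7541962571776, 188978561024), (1295415508992, 431805169664)] :=
  covD_E kE4_eq (.n 2 (.n 2 (.n 0 (.n 2 (.l 0) (.l 0)) (.n 2 (.l 0) (.l 0))) (.n 2 (.n 0 (.l 0) (.l 0)) (.l 0))) (.n 2 (.n 2 (.l 0) (.l 0)) (.n 2 (.l 0) (.l 0))))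
    [(6414139392, 917504000), (7541962571776, 188978561024), (1295415508992, 431805169664)] rfl (by decide +kernel)
theorem E4_c0_t16 : CovD 1 gE4 [(6414139392, 917504000), (7919919693824, 188978561024), (1295415508992, 431805169664)] :=
  covD_E kE4_eq (.n 2 (.n 0 (.n 2 (.n 2 (.l 0) (.l 0)) (.n 2 (.l 0) (.l 0))) (.n 2 (.n 2 (.l 0) (.l 0)) (.n 2 (.l 0) (.l 0)))) (.n 2 (.n 2 (.n 0 (.l 0) (.l 0)) (.l 0)) (.n 2 (.l 0) (.l 0))))
    [(6414139392, 917504000), (7919919693824, 188978561024), (1295415508992, 431805169664)] rfl (by decide +kernel)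
end

theorem A4_c0_t5 : CovD 1 gA4 [(5955387392, 458752000), (6975026888704, 377957122048), (5497558138880, 1099511627776)] :=
  covD_split 0 (by decide +kernel) A4_c0_t6 A4_c0_t7

theorem A4_c0_t4 : CovD 1 gA4 [(5955387392, 458752000), (6975026888704, 377957122048), (6597069766656, 2199023255552)] :=
  covD_split 2 (by decide +kernel) A4_c0_t5 A4_c0_t8

theorem A4_c0_t2 : CovD 1 gA4 [(5955387392, 458752000), (6975026888704, 377957122048), (4398046511104, 4398046511104)] :=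
  covD_split 2 (by decide +kernel) A4_c0_t3 A4_c0_t4

theorem A4_c0_t11 : CovD 1 gA4 [(5955387392, 458752000), (7730941132800, 377957122048), (6597069766656, 2199023255552)] :=
  covD_split 2 (by decide +kernel) A4_c0_t12 A4_c0_t13

theorem A4_c0_t9 : CovD 1 gA4 [(5955387392, 458752000), (7730941132800, 377957122048), (4398046511104, 4398046511104)] :=
  covD_split 2 (by decide +kernel) A4_c0_t10 A4_c0_t11

theorem A4_c0_t1 : CovD 1 gA4 [(5955387392, 458752000), (7352984010752, 755914244096), (4398046511104, 4398046511104)] :=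
  covD_split 1 (by decide +kernel) A4_c0_t2 A4_c0_t9

theorem A4_c0_t17 : CovD 1 gA4 [(6872891392, 458752000), (6975026888704, 377957122048), (6597069766656, 2199023255552)] :=
  covD_split 2 (by decide +kernel) A4_c0_t18 A4_c0_t19

theorem A4_c0_t15 : CovD 1 gA4 [(6872891392, 458752000), (6975026888704, 377957122048), (4398046511104, 4398046511104)] :=
  covD_split 2 (by decide +kernel) A4_c0_t16 A4_c0_t17

theorem A4_c0_t22 : CovD 1 gA4 [(6872891392, 458752000), (7730941132800, 377957122048), (6597069766656, 2199023255552)] :=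
  covD_split 2 (by decide +kernel) A4_c0_t23 A4_c0_t24

theorem A4_c0_t20 : CovD 1 gA4 [(6872891392, 458752000), (7730941132800, 377957122048), (4398046511104, 4398046511104)] :=
  covD_split 2 (by decide +kernel) A4_c0_t21 A4_c0_t22

theorem A4_c0_t14 : CovD 1 gA4 [(6872891392, 458752000), (7352984010752, 755914244096), (4398046511104, 4398046511104)] :=
  covD_split 1 (by decide +kernel) A4_c0_t15 A4_c0_t20

theorem A4_c0 : CovD 1 gA4 [(6414139392, 917504000), (7352984010752, 755914244096), (4398046511104, 4398046511104)] :=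
  covD_split 0 (by decide +kernel) A4_c0_t1 A4_c0_t14

theorem B4_c0 : CovD 1 gB4 [(6414139392, 917504000), (7352984010752, 755914244096), (68719476736, 68719476736)] :=
  covD_split 2 (by decide +kernel) B4_c0_t1 B4_c0_t2

theorem D4_c0_t1 : CovD 1 gD4 [(6414139392, 917504000), (6975026888704, 377957122048), (863610339328, 863610339328)] :=
  covD_split 1 (by decide +kernel) D4_c0_t2 D4_c0_t3

theorem D4_c0_t4 : CovD 1 gD4 [(6414139392, 917504000), (7730941132800, 377957122048), (863610339328, 863610339328)] :=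
  covD_split 1 (by decide +kernel) D4_c0_t5 D4_c0_t6

theorem D4_c0 : CovD 1 gD4 [(6414139392, 917504000), (7352984010752, 755914244096), (863610339328, 863610339328)] :=
  covD_split 1 (by decide +kernel) D4_c0_t1 D4_c0_t4

theorem E4_c0_t4 : CovD 1 gE4 [(6414139392, 917504000), (7352984010752, 755914244096), (323853877248, 107951292416)] :=
  covD_split 1 (by decide +kernel) E4_c0_t5 E4_c0_t6

theorem E4_c0_t2 : CovD 1 gE4 [(6414139392, 917504000), (7352984010752, 755914244096), (215902584832, 215902584832)] :=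
  covD_split 2 (by decide +kernel) E4_c0_t3 E4_c0_t4

theorem E4_c0_t7 : CovD 1 gE4 [(6414139392, 917504000), (7352984010752, 755914244096), (647707754496, 215902584832)] :=
  covD_split 1 (by decide +kernel) E4_c0_t8 E4_c0_t9

theorem E4_c0_t1 : CovD 1 gE4 [(6414139392, 917504000), (7352984010752, 755914244096), (431805169664, 431805169664)] :=
  covD_split 2 (by decide +kernel) E4_c0_t2 E4_c0_t7

theorem E4_c0_t11 : CovD 1 gE4 [(6414139392, 917504000), (6975026888704, 377957122048), (1295415508992, 431805169664)] :=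
  covD_split 1 (by decide +kernel) E4_c0_t12 E4_c0_t13

theorem E4_c0_t14 : CovD 1 gE4 [(6414139392, 917504000), (7730941132800, 377957122048), (1295415508992, 431805169664)] :=
  covD_split 1 (by decide +kernel) E4_c0_t15 E4_c0_t16

theorem E4_c0_t10 : CovD 1 gE4 [(6414139392, 917504000), (7352984010752, 755914244096), (1295415508992, 431805169664)] :=
  covD_split 1 (by decide +kernel) E4_c0_t11 E4_c0_t14

theorem E4_c0 : CovD 1 gE4 [(6414139392, 917504000), (7352984010752, 755914244096), (863610339328, 863610339328)] :=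
  covD_split 2 (by decide +kernel) E4_c0_t1 E4_c0_t10

end Pool.Agent.helper14.NS.Q150g
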