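import Pool.Agent.helper14.NS.Cert

/-!
Generated: table Q150g.
-/

namespace Pool.Agent.helper14.NS.Q150g

open Pool.Agent.helper63.NF Pool.Agent.helper4.NS

def tab : TD where
  strip := false
  bm := none
  ec := 6408896512
  bc := 7352984010752
  H := [[[17683186624, -1705549312, 28138816, -82511936], [2454188892608, 85633785152], [-14848440010304]], [[-838556160, 64154112, 31040], [-93634024576]], [[23165248, -1003136], [1053190400]], [[-395264]], [[2944]]]
  pol := some ⟨-4240743333888, -363766550102016, 5872294035456, 31362867265536, [[-199968164992, 31595904896], [-29280838152704, 0]], [[479436036864, -122016140224], [69571930265088, 0]]⟩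
  a := [[[186837106688, -42868408320, -244404846592, 114001575936], [-2580776681472, -8697115115520]], [[8796110848, 0, 0, 0], [0, 0]], [[8796110848, 0, 0, 0], [0, 0]], [[8796110848, 0, 0, 0], [0, 0]], [[8796110848, 0, 0, 0], [0, 0]], [[8796110848, 0, 0, 0], [0, 0]]]
  j := [4672924418048, 2199023255552, 4398046511104, 6597069766656, 8796093022208, 10995116277760]
  c := [549755813888, 329907175424, 219848638464, 164819369984, 110058536960, 110058536960]
  M := [[[[1109556527104, 4214358016, -1497432064], [3958116450304, 1404352790528], [356576826359808]], [[26234781696, -1431699456], [3252880474112]], [[3641769984, -987299840], [445280354304]], [[8850898944]], [[578355200]], [[7098466304]]], [[[1109488369664, 2519597056, 302252032], [2806089908224]], [[3155230720, 23658496], [577971486720]], [[3538944]], [[-65536]]], [[[1109370470400, 2753691648, 206700544], [3039588974592]], [[3155886080, 8978432], [564309655552]], [[4325376]], [[-65536]]], [[[1109162983424, 2818572288, 224788480], [3125292040192]], [[3201826816, 7405568], [559724888064]], [[1638400]], [[-65536]]], [[[1109142929408, 2827878400, 238223360], [3216285368320]], [[3210215424, 6684672], [555802296320]], [[1114112]], [[0]]], [[[1109124972544,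 2818113536, 241303552], [3258094125056]], [[3215130624, 6488064], [553864265728]], [[786432]], [[0]]]]
  l0 := [[[3727458638592, -120917190656, 1132811141248, 13960008704, -1976501562752], [-72666286194048, -43567498424000]], [[1039689727808, 81212885568, 70150031360, -28118882816], [14734312787200, 60131448036608]], [[953340951296, 95635906048, -126893665216, -74686555776], [9164602236096]], [[626649924800, -123539133184, 62961028096], [-71613588094784]], [[-589321568640, 117789143232]], [[1345437127936, -32823332928]], [[-1498728167808]], [[1194114320192]]]
  q0 := [[209254463040, 40970261632, 54386102848, 10712125504, -92892557184, -18996550720], [41048179839616, 6176467124992, -888679470272], [-276335814217344]]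
  t := [[[519020871680, 17963810816, -18658951168, 13844348928], [52220651962368, 10949610897408]], [[362586832896, 36938645504, -517603328, 380567552], [48544782680064, 5569653309440]], [[339711229952, 34223620096, -1082130432, 262078464], [43998866046976, 4100928962560]], [[319808929792, 29701832704, -1532624896, 275841024], [38773613461504, 2699865423872]], [[302661238784, 24866521088, -1921712128, 310247424], [33576612724736, 1251665117184]], [[281681395712, 19693305856, -2209677312, 388169728], [27998027513856, -138594680832]]]
  y := [9953586708480, 14208825556992, 16736413810688, 18047452577792, 18056042512384, 16711717748736]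
  sc := [0, 0, 0, 0, 0, 0]
  L := [(0, 2), (0, 3), (0, 4), (0, 5), (1, 1), (1, 2), (2, 0)]
  Lt := [(0, 2), (0, 3), (1, 1)]
  far := 4
  x2 := 10885165744128
  B1 := 1979120091136
  C2 := 1708879162368
  f1 := 0
  f2 := 0
  f3 := 0
  is1 := 8796093022208
  s1 := 137438953472

end Pool.Agent.helper14.NS.Q150g
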